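import Pool.Agent.Results.MP_ab3ecb_nt.ClosuresOverExtensions
import Pool.Agent.Results.MP_ab3ecb_nt.ClosuresInLinearSystems
import Pool.Agent.X134.Win.Cube
import Pool.Agent.X134.Win.Idx

/-!
# The members in cubes of all families of subvarieties of powers of elliptic curves

Let `v ≥ 1` be a sequence of exponent of convergence at most `τ` (`0` for `v_k = b ^ k`), `θ < 1` and `n ≥ 0`. There
is one set `A` in `ℝ ^ (n + 1)` of Hausdorff dimension at most `(n + τ) / (1 - θ)` such that for each `α` outside `A`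
the following holds for ALL number fields `K`, ALL elliptic curves `y² = x³ + a x + b` over `K` and ALL closed
subsets `X` of `E ^ r × ℙ ^ n` over `K` (families of subvarieties `X_y ⊆ E ^ r` with parameter `y`), for all but
finitely many `k` and ALL nonzero integral vectors `y` in the cube with centre `v_k α` and side `2 v_k ^ θ`.

(1) If no fibre of `X → E ^ r` is all of `ℙ ^ n` (for instance: base point free linear systems of divisors and their
intersections), then the closure of the group of `K`-rational points does not meet the product of the `X_y(K_v)`.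
(2) If for `2 ≤ m ≤ M` and every complex point of `E ^ r` the `y` for which it is a sum of `m` points of `X_y` lie on
a hypersurface of degree `d`, then for ALL extensions `F` of `K` of degree between `2` and `M` the closure of the
group of the `F`-rational points does not meet the product of the `X_y(F_w)`.

The set `A` is small (of dimension less than `n + 1`) if `(n + 1) θ + τ < 1`.

Proof. The starting results `ClosuresInLinearSystems` and `ClosuresOverExtensions` show that the exceptions up to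
height `B` lie on `O(B ^ ε)` hypersurfaces of bounded degree; Schwartz-Zippel; covering argument
`Pool.Agent.X174.windowsVec`; the situations are countable in number.
-/

set_option autoImplicit false

namespace Pool.Agent.Results.MP_ab3ecb_nt.ClosuresInCubes

open MvPolynomial NumberField IsDedekindDomain MeasureTheory

open scoped LinearAlgebra.Projectivization

/-- the exponent of convergence of the sequence `v` is at most `τ` -/
def ExpLe (v : ℕ → ℝ) (τ : ℝ) : Prop := ∀ t : ℝ, τ < t → Summable (fun n : ℕ => (v n) ^ (-t))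

/-- the number fields inside a fixed algebraic closure of the rationals -/
abbrev NF : Type := Pool.Agent.X134.Win.NF

/-- for all but finitely many `k` no nonzero integral vector `y` in the cube with centre `v_k α` and side
`2 v_k ^ θ` gives a point of `S` -/
def Avoids {K : Type} [Field K] {n : ℕ} (v : ℕ → ℝ) (α : Fin (n + 1) → ℝ) (θ : ℝ)
    (S : Set (ℙ K (Fin (n + 1) → K))) : Prop :=
  ∃ k₀ : ℕ, ∀ k : ℕ, k₀ ≤ k → ∀ (y : Fin (n + 1) → ℤ) (hy : (fun j => (y j : K)) ≠ 0),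
    (∀ j, |(y j : ℝ) - α j * v k| ≤ (v k) ^ θ) → Projectivization.mk K (fun j => (y j : K)) hy ∉ S

/-- no fibre of `X → E ^ r` over a complex point of `E ^ r` is all of `ℙ ^ n` -/
def FibresNotFull {K : Type} [Field K] (σ : K →+* ℂ) (a b : 𝓞 K) {r n q : ℕ}
    (G : Fin q → MvPolynomial ((Fin r × Fin 3) ⊕ Fin (n + 1)) (𝓞 K)) : Prop :=
  ∀ V : Fin r → Fin 3 → ℂ, (∀ i, ClosuresInLinearSystems.OnE (σ a) (σ b) (V i)) →
    ClosuresInLinearSystems.Fibre (σ.comp (algebraMap (𝓞 K) K)) G V ≠ Set.univ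

/-- for `2 ≤ m ≤ M` and each complex point of `E ^ r` the `y` for which it is a sum of `m` points of `X_y` lie on a
hypersurface of degree `d` -/
def SumsOnHypersurface {K : Type} [Field K] (σ : K →+* ℂ) (a b : 𝓞 K) {r n q : ℕ}
    (G : Fin q → MvPolynomial ((Fin r × Fin 3) ⊕ Fin (n + 1)) (𝓞 K)) (M d : ℕ) : Prop :=
  ∀ m, 2 ≤ m → m ≤ M → ∀ S : Fin r → (ClosuresOverExtensions.curve (σ a) (σ b)).toAffine.Point,
    ∃ g : MvPolynomial (Fin (n + 1)) ℂ, g ≠ 0 ∧ g.IsHomogeneous d ∧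
      ∀ y : ℙ ℂ (Fin (n + 1) → ℂ), ClosuresOverExtensions.IsSum σ a b G m S y.rep → eval y.rep g = 0

/-- the assertion for all elliptic curves over `K` and all families with parameters in `ℙ ^ n` -/
def Obstructed (K : Type) [Field K] [NumberField K] (n : ℕ) (v : ℕ → ℝ) (α : Fin (n + 1) → ℝ)
    (θ : ℝ) : Prop :=
  ∀ a b : 𝓞 K, 4 * a ^ 3 + 27 * b ^ 2 ≠ 0 → ∀ (r q : ℕ)
    (G : Fin q → MvPolynomial ((Fin r × Fin 3) ⊕ Fin (n + 1)) (𝓞 K))
    (e : Fin q → Fin r → ℕ) (deg : Fin q → ℕ),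
    (∀ l, ClosuresOverExtensions.MultiHom (G l) (e l) (deg l)) → ∀ σ : K →+* ℂ,
    (FibresNotFull σ a b G → ∀ S : Set (HeightOneSpectrum (𝓞 K)), S.Finite →
      Avoids v α θ (ClosuresInLinearSystems.Unobstructed a b G S)) ∧
    ∀ M d : ℕ, 1 ≤ d → SumsOnHypersurface σ a b G M d → ∀ T : Finset ℕ, (∀ p ∈ T, p.Prime) →
      Avoids v α θ (ClosuresOverExtensions.Unobstructed a b G T M)

section Proof

/-- the hypotheses of the first part -/
def Hyp₁ (K : Type) [Field K] [NumberField K] {r n q : ℕ} (a b : 𝓞 K)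
    (G : Fin q → MvPolynomial ((Fin r × Fin 3) ⊕ Fin (n + 1)) (𝓞 K)) (k : ℕ) : Prop :=
  4 * a ^ 3 + 27 * b ^ 2 ≠ 0 ∧
    (∃ (e : Fin q → Fin r → ℕ) (m : Fin q → ℕ),
      (∀ l, ClosuresInLinearSystems.MultiHomog (G l) (e l) (m l)) ∧ ∀ l, m l ≤ k) ∧
    ∃ σ : K →+* ℂ, FibresNotFull σ a b G

/-- the hypotheses of the second part -/
def Hyp₂ (K : Type) [Field K] [NumberField K] {r n q : ℕ} (a b : 𝓞 K)
    (G : Fin q → MvPolynomial ((Fin r × Fin 3) ⊕ Fin (n + 1)) (𝓞 K)) (T : Finset ℕ) (M k : ℕ) : Prop :=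
  4 * a ^ 3 + 27 * b ^ 2 ≠ 0 ∧
    (∃ (e : Fin q → Fin r → ℕ) (m : Fin q → ℕ),
      ∀ l, ClosuresOverExtensions.MultiHom (G l) (e l) (m l)) ∧ (∀ p ∈ T, p.Prime) ∧ 1 ≤ k ∧
    ∃ σ : K →+* ℂ, SumsOnHypersurface σ a b G M k

theorem few_empty {K : Type} [Field K] [NumberField K] {n : ℕ} (k : ℕ)
    {Bad : Set (ℙ K (Fin (n + 1) → K))} (h : ∀ y, y ∉ Bad) :
    Pool.Agent.X134.Win.OnFewHypersurfaces k Bad := by
  intro ε hε
  refine ⟨0, fun B hB => ⟨∅, ?_, fun f hf => absurd hf (Finset.notMem_empty f),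
    fun y hy => absurd hy (h y)⟩⟩
  rw [Finset.card_empty, Nat.cast_zero, zero_mul]

theorem few₁ (K : Type) [Field K] [NumberField K] {r n q : ℕ} (a b : 𝓞 K)
    (G : Fin q → MvPolynomial ((Fin r × Fin 3) ⊕ Fin (n + 1)) (𝓞 K))
    (S : Finset (HeightOneSpectrum (𝓞 K))) (k : ℕ) :
    Pool.Agent.X134.Win.OnFewHypersurfaces k {y : ℙ K (Fin (n + 1) → K) | Hyp₁ K a b G k ∧
      y ∈ ClosuresInLinearSystems.Unobstructed a b G (S : Set (HeightOneSpectrum (𝓞 K)))} := by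
  by_cases h : Hyp₁ K a b G k
  · obtain ⟨h1, ⟨e, m, h2, h2'⟩, σ, h3⟩ := id h
    intro ε hε
    obtain ⟨C, hC⟩ := ClosuresInLinearSystems.result K a b h1 r n q G e m h2 k h2' σ h3 _
      S.finite_toSet ε hε
    refine ⟨C, fun B hB => ?_⟩
    obtain ⟨FF, hF1, hF2, hF3⟩ := hC B hB
    exact ⟨FF, hF1, hF2, fun y hy hyB => hF3 y hy.2 hyB⟩
  · exact few_empty k fun y hy => h hy.1

theorem few₂ (K : Type) [Field K] [NumberField K] {r n q : ℕ} (a b : 𝓞 K)
    (G : Fin q → MvPolynomial ((Fin r × Fin 3) ⊕ Fin (n + 1)) (𝓞 K)) (T : Finset ℕ) (M k : ℕ) :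
    Pool.Agent.X134.Win.OnFewHypersurfaces k {y : ℙ K (Fin (n + 1) → K) | Hyp₂ K a b G T M k ∧
      y ∈ ClosuresOverExtensions.Unobstructed a b G T M} := by
  by_cases h : Hyp₂ K a b G T M k
  · obtain ⟨h1, ⟨e, m, h2⟩, hT, hk, σ, h3⟩ := id h
    intro ε hε
    obtain ⟨C, hC⟩ := ClosuresOverExtensions.result K a b h1 r n q G e m h2 σ M k hk h3 T hT ε hε
    refine ⟨C, fun B hB => ?_⟩
    obtain ⟨FF, hF1, hF2, hF3⟩ := hC B hB
    exact ⟨FF, hF1, hF2, fun y hy hyB => hF3 y hy.2 hyB⟩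
  · exact few_empty k fun y hy => h hy.1

/-- the index sets -/
abbrev I (n : ℕ) (X : NF → Type) : Type := Σ K : NF, Σ r : ℕ, Σ q : ℕ, (𝓞 K.1 × 𝓞 K.1) ×
  (Fin q → MvPolynomial ((Fin r × Fin 3) ⊕ Fin (n + 1)) (𝓞 K.1)) × X K

/-- the exceptional sets of the first part -/
def Bad₁ (n : ℕ) : ∀ i : I n (fun K => Finset (HeightOneSpectrum (𝓞 K.1)) × ℕ),
    Set (ℙ i.1.1 (Fin (n + 1) → i.1.1))
  | ⟨K, _, _, (a, b), G, (S, k)⟩ => {y | Hyp₁ K.1 a b G k ∧
    y ∈ ClosuresInLinearSystems.Unobstructed a b G (S : Set (HeightOneSpectrum (𝓞 K.1)))}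

/-- the exceptional sets of the second part -/
def Bad₂ (n : ℕ) : ∀ i : I n (fun _ => Finset ℕ × ℕ × ℕ), Set (ℙ i.1.1 (Fin (n + 1) → i.1.1))
  | ⟨K, _, _, (a, b), G, (T, M, k)⟩ => {y | Hyp₂ K.1 a b G T M k ∧
    y ∈ ClosuresOverExtensions.Unobstructed a b G T M}

end Proof

/-- **Theorem.** See the header. -/
theorem result :
    (∀ (n : ℕ) (v : ℕ → ℝ) (τ θ : ℝ), (∀ k, 1 ≤ v k) → 0 ≤ τ → ExpLe v τ → θ < 1 →
      ∃ A : Set (Fin (n + 1) → ℝ), dimH A ≤ ENNReal.ofReal (((n : ℝ) + τ) / (1 - θ)) ∧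
        ∀ α : Fin (n + 1) → ℝ, α ∉ A → ∀ K : NF, Obstructed K.1 n v α θ) ∧
    (∀ b : ℝ, 0 < b → ExpLe (fun n : ℕ => ((n : ℝ) + 1) ^ b) (1 / b)) ∧
    (∀ b : ℝ, 1 < b → ExpLe (fun n : ℕ => b ^ n) 0) := by
  classical
  refine ⟨fun n v τ θ hv hτ hE hθ => ?_, fun b hb => Pool.Agent.Y854.GM.expLe_pow b hb,
    fun b hb => Pool.Agent.Y854.GM.expLe_geom b hb⟩
  obtain ⟨A₁, hA₁, H₁⟩ := Pool.Agent.X134.Win.cubes (n := n)
    (ι := I n (fun K => Finset (HeightOneSpectrum (𝓞 K.1)) × ℕ)) (fun i => i.1)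
    (fun i => i.2.2.2.2.2.2) (Bad₁ n)
    (by rintro ⟨K, r, q, ⟨a, b⟩, G, S, k⟩; exact few₁ K.1 a b G S k) hv hτ hE hθ
  obtain ⟨A₂, hA₂, H₂⟩ := Pool.Agent.X134.Win.cubes (n := n)
    (ι := I n (fun _ => Finset ℕ × ℕ × ℕ)) (fun i => i.1)
    (fun i => i.2.2.2.2.2.2.2) (Bad₂ n)
    (by rintro ⟨K, r, q, ⟨a, b⟩, G, T, M, k⟩; exact few₂ K.1 a b G T M k) hv hτ hE hθ
  refine ⟨A₁ ∪ A₂, ?_, fun α hαA K a b hab r q G e deg hG σ => ⟨fun hX S hS => ?_,
    fun M d hd hX T hT => ?_⟩⟩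
  · rw [dimH_union]
    exact max_le hA₁ hA₂
  · obtain ⟨k₀, hk₀⟩ := H₁ α (fun h => hαA (Or.inl h))
      ⟨K, r, q, (a, b), G, hS.toFinset, Finset.univ.sup deg⟩
    refine ⟨k₀, fun k hk y hy hc hbad => hk₀ k hk y hy hc ⟨⟨hab, ⟨e, deg, hG, fun l =>
      Finset.le_sup (f := deg) (Finset.mem_univ l)⟩, σ, hX⟩, ?_⟩⟩
    rw [Set.Finite.coe_toFinset]
    exact hbad
  · obtain ⟨k₀, hk₀⟩ := H₂ α (fun h => hαA (Or.inr h)) ⟨K, r, q, (a, b), G, T, M, d⟩
    exact ⟨k₀, fun k hk y hy hc hbad => hk₀ k hk y hy hc ⟨⟨hab, ⟨e, deg, hG⟩, hT, hd, σ, hX⟩, hbad⟩⟩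

end Pool.Agent.Results.MP_ab3ecb_nt.ClosuresInCubes
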