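import Pool.Agent.Results.MP_ab3ecb_nt.ClosuresOverExtensions
import Pool.Agent.Results.MP_ab3ecb_nt.ClosuresInLinearSystems
import Pool.Agent.X134.Win.Line
import Pool.Agent.X134.Win.Idx

/-!
# The members near generic targets of all one-parameter families of subvarieties of powers of elliptic curves

Let `K` be a number field. The following holds for ALL elliptic curves `y² = x³ + a x + b` over `K` and ALL closed subsets
`X` of `E ^ r × ℙ ^ 1` over `K` (families of subvarieties `X_y ⊆ E ^ r` with parameter `y`). Let `η > 0` and consider ALL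
points `y` of `ℙ ^ 1 (K)` of large height `H` at distance at most `H ^ (-η)` from a given target `x`.

(1) If no fibre of `X → E ^ r` is all of `ℙ ^ 1` (for instance: base point free pencils of divisors), then the closure of
the group of `K`-rational points does not meet the product of the `X_y(K_v)`.
(2) If for `2 ≤ m ≤ M` every complex point of `E ^ r` is for at most `d` of the `y` a sum of `m` points of `X_y`, then for
ALL extensions `F` of `K` of degree between `2` and `M` the closure of the group of the `F`-rational points does not meet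
the product of the `X_y(F_w)`.

For a number field `K` and an arbitrary map of `ℙ ^ 1 (K)` to a metric space (for instance the affine coordinate in one or
several completions of `K`) this is proved for all targets outside a set of Hausdorff dimension zero. There is one set in
`ℂ` of Hausdorff dimension zero such that this is proved for all number fields `K`, all embeddings in `ℂ` (and the affine
coordinate) and all targets outside this set.

Proof. The starting results `ClosuresInLinearSystems` and `ClosuresOverExtensions` give `O(B ^ ε)` exceptions up to height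
`B`; covering argument; the situations are countable in number.
-/

set_option autoImplicit false

namespace Pool.Agent.Results.MP_ab3ecb_nt.ClosuresNearTargets

open MvPolynomial NumberField IsDedekindDomain MeasureTheory

open scoped LinearAlgebra.Projectivization

/-- the number fields inside a fixed algebraic closure of the rationals -/
abbrev NF : Type := Pool.Agent.X134.Win.NF

/-- no point `y` of `S` of large height `H` is mapped by `f` to a point at distance at most `H ^ (-η)` from `x` -/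
def Avoids {K : Type} [Field K] [NumberField K] {X : Type} [MetricSpace X] (f : ℙ K (Fin (1 + 1) → K) → X) (x : X)
    (η : ℝ) (S : Set (ℙ K (Fin (1 + 1) → K))) : Prop :=
  ∃ H₀ : ℝ, ∀ y : ℙ K (Fin (1 + 1) → K), H₀ ≤ y.mulHeight → dist (f y) x ≤ y.mulHeight ^ (-η) → y ∉ S

/-- no fibre of `X → E ^ r` over a complex point of `E ^ r` is all of `ℙ ^ 1` -/
def FibresNotFull {K : Type} [Field K] (σ : K →+* ℂ) (a b : 𝓞 K) {r q : ℕ}
    (G : Fin q → MvPolynomial ((Fin r × Fin 3) ⊕ Fin (1 + 1)) (𝓞 K)) : Prop :=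
  ∀ V : Fin r → Fin 3 → ℂ, (∀ i, ClosuresInLinearSystems.OnE (σ a) (σ b) (V i)) →
    ClosuresInLinearSystems.Fibre (σ.comp (algebraMap (𝓞 K) K)) G V ≠ Set.univ

/-- for `2 ≤ m ≤ M` each complex point of `E ^ r` is a sum of `m` points of `X_y` for at most `d` of the complex `y` -/
def SumsLE {K : Type} [Field K] (σ : K →+* ℂ) (a b : 𝓞 K) {r q : ℕ}
    (G : Fin q → MvPolynomial ((Fin r × Fin 3) ⊕ Fin (1 + 1)) (𝓞 K)) (M d : ℕ) : Prop :=
  ∀ m, 2 ≤ m → m ≤ M → ∀ S : Fin r → (ClosuresOverExtensions.curve (σ a) (σ b)).toAffine.Point,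
    {y : ℙ ℂ (Fin (1 + 1) → ℂ) | ClosuresOverExtensions.IsSum σ a b G m S y.rep}.encard ≤ d

/-- the assertion for all elliptic curves over `K` and all families with parameters in `ℙ ^ 1`, for the map `f` and the
target `x` -/
def Obstructed {K : Type} [Field K] [NumberField K] {X : Type} [MetricSpace X]
    (f : ℙ K (Fin (1 + 1) → K) → X) (x : X) : Prop :=
  ∀ a b : 𝓞 K, 4 * a ^ 3 + 27 * b ^ 2 ≠ 0 → ∀ (r q : ℕ)
    (G : Fin q → MvPolynomial ((Fin r × Fin 3) ⊕ Fin (1 + 1)) (𝓞 K))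
    (e : Fin q → Fin r → ℕ) (deg : Fin q → ℕ),
    (∀ l, ClosuresOverExtensions.MultiHom (G l) (e l) (deg l)) → ∀ (σ : K →+* ℂ) (η : ℝ), 0 < η →
    (FibresNotFull σ a b G → ∀ S : Set (HeightOneSpectrum (𝓞 K)), S.Finite →
      Avoids f x η (ClosuresInLinearSystems.Unobstructed a b G S)) ∧
    ∀ M d : ℕ, SumsLE σ a b G M d → ∀ T : Finset ℕ, (∀ p ∈ T, p.Prime) →
      Avoids f x η (ClosuresOverExtensions.Unobstructed a b G T M)

/-- the affine coordinate of a point of `ℙ ^ 1 (K)` under the embedding `σ` of `K` -/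
noncomputable def affine {K : Type} [Field K] (σ : K →+* ℂ) (y : ℙ K (Fin (1 + 1) → K)) : ℂ :=
  σ (y.rep 1 / y.rep 0)

section Proof

/-- finitely many points of the projective line are the zeros of a form -/
theorem exists_form (s : Finset (ℙ ℂ (Fin (1 + 1) → ℂ))) :
    ∃ g : MvPolynomial (Fin (1 + 1)) ℂ, g ≠ 0 ∧ g.IsHomogeneous s.card ∧
      ∀ y ∈ s, eval y.rep g = 0 := by
  classical
  refine ⟨∏ z ∈ s, (C (z.rep 1) * X 0 - C (z.rep 0) * X 1), ?_, ?_, fun y hy => ?_⟩
  · rw [Finset.prod_ne_zero_iff]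
    intro z _ h0
    apply z.rep_nonzero
    have h1 := congrArg (eval ![1, 0]) h0
    have h2 := congrArg (eval ![0, 1]) h0
    simp at h1 h2
    funext i
    fin_cases i
    · exact h2
    · exact h1
  · have h := MvPolynomial.IsHomogeneous.prod s (fun z : ℙ ℂ (Fin (1 + 1) → ℂ) =>
      (C (z.rep 1) * X 0 - C (z.rep 0) * X 1 : MvPolynomial (Fin (1 + 1)) ℂ)) (fun _ => 1) (fun z _ =>
      ((isHomogeneous_C_mul_X _ _).sub (isHomogeneous_C_mul_X _ _)))
    simpa using h
  · rw [map_prod]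
    refine Finset.prod_eq_zero hy ?_
    simp [mul_comm]

theorem sums_form {K : Type} [Field K] {σ : K →+* ℂ} {a b : 𝓞 K} {r q : ℕ}
    {G : Fin q → MvPolynomial ((Fin r × Fin 3) ⊕ Fin (1 + 1)) (𝓞 K)} {M d : ℕ} (h : SumsLE σ a b G M d)
    (m : ℕ) (h1 : 2 ≤ m) (h2 : m ≤ M) (S : Fin r → (ClosuresOverExtensions.curve (σ a) (σ b)).toAffine.Point) :
    ∃ g : MvPolynomial (Fin (1 + 1)) ℂ, g ≠ 0 ∧ g.IsHomogeneous (d + 1) ∧
      ∀ y : ℙ ℂ (Fin (1 + 1) → ℂ), ClosuresOverExtensions.IsSum σ a b G m S y.rep → eval y.rep g = 0 := by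
  classical
  have h3 := h m h1 h2 S
  have hfin : {y : ℙ ℂ (Fin (1 + 1) → ℂ) | ClosuresOverExtensions.IsSum σ a b G m S y.rep}.Finite :=
    Set.finite_of_encard_le_coe h3
  obtain ⟨g, hg1, hg2, hg3⟩ := exists_form hfin.toFinset
  have hcard : hfin.toFinset.card ≤ d := by
    rw [hfin.encard_eq_coe_toFinset_card] at h3
    exact_mod_cast h3
  refine ⟨g * X 0 ^ (d + 1 - hfin.toFinset.card), mul_ne_zero hg1 (pow_ne_zero _ (X_ne_zero _)), ?_, fun y hy => ?_⟩
  · have h4 := hg2.mul ((isHomogeneous_X ℂ (0 : Fin (1 + 1))).pow (d + 1 - hfin.toFinset.card))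
    rw [one_mul, Nat.add_sub_cancel' (by omega)] at h4
    exact h4
  · rw [map_mul, hg3 y (hfin.mem_toFinset.2 hy), zero_mul]

/-- the hypotheses of the first part -/
def Hyp₁ (K : Type) [Field K] [NumberField K] {r q : ℕ} (a b : 𝓞 K)
    (G : Fin q → MvPolynomial ((Fin r × Fin 3) ⊕ Fin (1 + 1)) (𝓞 K)) (k : ℕ) : Prop :=
  4 * a ^ 3 + 27 * b ^ 2 ≠ 0 ∧
    (∃ (e : Fin q → Fin r → ℕ) (m : Fin q → ℕ),
      (∀ l, ClosuresInLinearSystems.MultiHomog (G l) (e l) (m l)) ∧ ∀ l, m l ≤ k) ∧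
    ∃ σ : K →+* ℂ, FibresNotFull σ a b G

/-- the hypotheses of the second part -/
def Hyp₂ (K : Type) [Field K] [NumberField K] {r q : ℕ} (a b : 𝓞 K)
    (G : Fin q → MvPolynomial ((Fin r × Fin 3) ⊕ Fin (1 + 1)) (𝓞 K)) (T : Finset ℕ) (M d : ℕ) : Prop :=
  4 * a ^ 3 + 27 * b ^ 2 ≠ 0 ∧
    (∃ (e : Fin q → Fin r → ℕ) (m : Fin q → ℕ),
      ∀ l, ClosuresOverExtensions.MultiHom (G l) (e l) (m l)) ∧ (∀ p ∈ T, p.Prime) ∧
    ∃ σ : K →+* ℂ, SumsLE σ a b G M d

theorem few_empty {K : Type} [Field K] [NumberField K] {n : ℕ} (k : ℕ)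
    {Bad : Set (ℙ K (Fin (n + 1) → K))} (h : ∀ y, y ∉ Bad) :
    Pool.Agent.X134.Win.OnFewHypersurfaces k Bad := by
  intro ε hε
  refine ⟨0, fun B hB => ⟨∅, ?_, fun f hf => absurd hf (Finset.notMem_empty f),
    fun y hy => absurd hy (h y)⟩⟩
  rw [Finset.card_empty, Nat.cast_zero, zero_mul]

theorem few₁ (K : Type) [Field K] [NumberField K] {r q : ℕ} (a b : 𝓞 K)
    (G : Fin q → MvPolynomial ((Fin r × Fin 3) ⊕ Fin (1 + 1)) (𝓞 K))
    (S : Finset (HeightOneSpectrum (𝓞 K))) (k : ℕ) :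
    Pool.Agent.X134.Win.OnFewHypersurfaces k {y : ℙ K (Fin (1 + 1) → K) | Hyp₁ K a b G k ∧
      y ∈ ClosuresInLinearSystems.Unobstructed a b G (S : Set (HeightOneSpectrum (𝓞 K)))} := by
  by_cases h : Hyp₁ K a b G k
  · obtain ⟨h1, ⟨e, m, h2, h2'⟩, σ, h3⟩ := id h
    intro ε hε
    obtain ⟨C, hC⟩ := ClosuresInLinearSystems.result K a b h1 r 1 q G e m h2 k h2' σ h3 _
      S.finite_toSet ε hε
    refine ⟨C, fun B hB => ?_⟩
    obtain ⟨FF, hF1, hF2, hF3⟩ := hC B hB
    exact ⟨FF, hF1, hF2, fun y hy hyB => hF3 y hy.2 hyB⟩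
  · exact few_empty k fun y hy => h hy.1

theorem few₂ (K : Type) [Field K] [NumberField K] {r q : ℕ} (a b : 𝓞 K)
    (G : Fin q → MvPolynomial ((Fin r × Fin 3) ⊕ Fin (1 + 1)) (𝓞 K)) (T : Finset ℕ) (M d : ℕ) :
    Pool.Agent.X134.Win.OnFewHypersurfaces (d + 1) {y : ℙ K (Fin (1 + 1) → K) | Hyp₂ K a b G T M d ∧
      y ∈ ClosuresOverExtensions.Unobstructed a b G T M} := by
  by_cases h : Hyp₂ K a b G T M d
  · obtain ⟨h1, ⟨e, m, h2⟩, hT, σ, h3⟩ := id h
    intro ε hε
    obtain ⟨C, hC⟩ := ClosuresOverExtensions.result K a b h1 r 1 q G e m h2 σ M (d + 1) (by omega)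
      (sums_form h3) T hT ε hε
    refine ⟨C, fun B hB => ?_⟩
    obtain ⟨FF, hF1, hF2, hF3⟩ := hC B hB
    exact ⟨FF, hF1, hF2, fun y hy hyB => hF3 y hy.2 hyB⟩
  · exact few_empty (d + 1) fun y hy => h hy.1

/-- the index sets -/
abbrev I (K : Type) [Field K] [NumberField K] (X : Type) : Type := Σ r : ℕ, Σ q : ℕ, (𝓞 K × 𝓞 K) ×
  (Fin q → MvPolynomial ((Fin r × Fin 3) ⊕ Fin (1 + 1)) (𝓞 K)) × X

theorem countable_I (K : Type) [Field K] [NumberField K] (X : Type) [Countable X] : Countable (I K X) := by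
  have h1 : Countable (𝓞 K) := Pool.Agent.X134.Win.countable_integers K
  have h2 : ∀ r, Countable (MvPolynomial ((Fin r × Fin 3) ⊕ Fin (1 + 1)) (𝓞 K)) := fun r =>
    Pool.Agent.X134.Win.countable_mvPolynomial _ _
  infer_instance

theorem countable_primes (K : Type) [Field K] [NumberField K] : Countable (HeightOneSpectrum (𝓞 K)) := by
  have h1 : Countable (𝓞 K) := Pool.Agent.X134.Win.countable_integers K
  have := Pool.Agent.X134.Win.countable_ideals (𝓞 K)
  have hinj : Function.Injective (fun v : HeightOneSpectrum (𝓞 K) => v.asIdeal) :=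
    fun v w h => HeightOneSpectrum.ext h
  exact hinj.countable

/-- the exceptional sets of the first part -/
def Bad₁ {K : Type} [Field K] [NumberField K] :
    I K (Finset (HeightOneSpectrum (𝓞 K)) × ℕ) → Set (ℙ K (Fin (1 + 1) → K))
  | ⟨_, _, (a, b), G, (S, k)⟩ => {y | Hyp₁ K a b G k ∧
    y ∈ ClosuresInLinearSystems.Unobstructed a b G (S : Set (HeightOneSpectrum (𝓞 K)))}

/-- the exceptional sets of the second part -/
def Bad₂ {K : Type} [Field K] [NumberField K] : I K (Finset ℕ × ℕ × ℕ) → Set (ℙ K (Fin (1 + 1) → K))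
  | ⟨_, _, (a, b), G, (T, M, d)⟩ => {y | Hyp₂ K a b G T M d ∧
    y ∈ ClosuresOverExtensions.Unobstructed a b G T M}

end Proof

/-- **Theorem.** (1) Let `K` be a number field and `f` an arbitrary map of `ℙ ^ 1 (K)` to a metric space `X` (with its
Borel sets). There is a set `A ⊆ X` of Hausdorff dimension zero such that `Obstructed f x` for all `x ∉ A`. (2) There is a
set `A ⊆ ℂ` of Hausdorff dimension zero such that `Obstructed (affine σ) x` for all `x ∉ A`, all number fields `K` and all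
embeddings `σ` of `K` in `ℂ`. -/
theorem result :
    (∀ (K : Type) [Field K] [NumberField K] (X : Type) [MetricSpace X] [MeasurableSpace X] [BorelSpace X]
      (f : ℙ K (Fin (1 + 1) → K) → X), ∃ A : Set X, dimH A = 0 ∧ ∀ x : X, x ∉ A → Obstructed f x) ∧
    (∃ A : Set ℂ, dimH A = 0 ∧ ∀ x : ℂ, x ∉ A → ∀ (K : NF) (σ : K.1 →+* ℂ), Obstructed (affine σ) x) := by
  have part1 : ∀ (K : Type) [Field K] [NumberField K] (X : Type) [MetricSpace X] [MeasurableSpace X] [BorelSpace X]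
      (f : ℙ K (Fin (1 + 1) → K) → X), ∃ A : Set X, dimH A = 0 ∧ ∀ x : X, x ∉ A → Obstructed f x := by
    intro K _ _ X _ _ _ f
    have := countable_primes K
    have := countable_I K (Finset (HeightOneSpectrum (𝓞 K)) × ℕ)
    have := countable_I K (Finset ℕ × ℕ × ℕ)
    obtain ⟨A₁, hA₁, H₁⟩ := Pool.Agent.X134.Win.targets_c (X := X) (ι := I K (Finset (HeightOneSpectrum (𝓞 K)) × ℕ))
      (T := fun _ => ℙ K (Fin (1 + 1) → K)) (fun _ => f) (fun _ y => y.mulHeight) (fun i _ y => y ∉ Bad₁ i)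
      (by
        rintro ⟨r, q, ⟨a, b⟩, G, S, k⟩
        exact Pool.Agent.X134.Win.fewBad_line k _ (few₁ K a b G S k))
    obtain ⟨A₂, hA₂, H₂⟩ := Pool.Agent.X134.Win.targets_c (X := X) (ι := I K (Finset ℕ × ℕ × ℕ))
      (T := fun _ => ℙ K (Fin (1 + 1) → K)) (fun _ => f) (fun _ y => y.mulHeight) (fun i _ y => y ∉ Bad₂ i)
      (by
        rintro ⟨r, q, ⟨a, b⟩, G, T, M, d⟩
        exact Pool.Agent.X134.Win.fewBad_line (d + 1) _ (few₂ K a b G T M d))
    refine ⟨A₁ ∪ A₂, by rw [dimH_union, hA₁, hA₂, max_self], fun x hx a b hab r q G e deg hG σ η hη =>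
      ⟨fun hX S hS => ?_, fun M d hX T hT => ?_⟩⟩
    · obtain ⟨h₀, hh⟩ := H₁ x (fun h => hx (Or.inl h)) ⟨r, q, (a, b), G, (hS.toFinset, Finset.univ.sup deg)⟩ η hη 1
        one_pos
      refine ⟨h₀, fun y hy hyx hbad => ?_⟩
      obtain ⟨N, -, -, hg⟩ := hh y hy hyx
      refine hg ⟨⟨hab, ⟨e, deg, hG, fun l => Finset.le_sup (f := deg) (Finset.mem_univ l)⟩, σ, hX⟩, ?_⟩
      rw [Set.Finite.coe_toFinset]
      exact hbad
    · obtain ⟨h₀, hh⟩ := H₂ x (fun h => hx (Or.inr h)) ⟨r, q, (a, b), G, (T, M, d)⟩ η hη 1 one_pos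
      refine ⟨h₀, fun y hy hyx hbad => ?_⟩
      obtain ⟨N, -, -, hg⟩ := hh y hy hyx
      exact hg ⟨⟨hab, ⟨e, deg, hG⟩, hT, σ, hX⟩, hbad⟩
  refine ⟨part1, ?_⟩
  choose A hA1 hA2 using fun i : (Σ K : NF, (K.1 →+* ℂ)) => part1 i.1.1 ℂ (affine i.2)
  have hfin : ∀ K : NF, Countable (K.1 →+* ℂ) := fun K => by
    have : Finite (K.1 →+* ℂ) := inferInstance
    infer_instance
  refine ⟨⋃ i, A i, by rw [dimH_iUnion]; simp [hA1], fun x hx K σ => ?_⟩
  exact hA2 ⟨K, σ⟩ x (fun h => hx (Set.mem_iUnion.2 ⟨_, h⟩))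

end Pool.Agent.Results.MP_ab3ecb_nt.ClosuresNearTargets
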