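import Pool.Agent.X20.Tr.Sqf
import Pool.Agent.Results.MP_ab3ecb_nt.ApproximationOnTwists

/-!
# The Brauer-Manin sets of the twists of split hyperelliptic curves by `± ⌊α n ^ c⌋`

From Mathlib: `dimH E`: the Hausdorff dimension; `⌊x⌋₊`: the integer part; `Finset.Icc 1 N`: the integers from `1` to
`N`. From the team's `ApproximationOnTwists` (its definitions are used as they are): for integers `u i`, `v i`,
`C_d : d y ^ 2 = ∏ i, (u i x + v i w)`; `Generic u v`: the linear forms are pairwise independent, and for `i ≠ k` the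
products `det i l * det k l`, `l ≠ i, k`, are not all in the same square class; `Point u v d F`: a point of `C_d` over `F`;
`AdelicPoint u v d`: an adelic point of `C_d`; `Orthogonal P`: `P` is orthogonal to the classes `(ℓ_i / ℓ_k, e)` of the
Brauer group (`ℓ_i` the linear forms, `e` a test element); `SameEverywhere P Q`: `P` and the rational point `Q` lift to the
same 2-covering of `C_d` over every completion of `ℚ`.
-/

set_option autoImplicit false

namespace Pool.Agent.Results.MP_ab3ecb_nt.SparseSplitTwists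

open Finset Filter
open Pool.Agent.X20.Tr
open Pool.Agent.Results.MP_ab3ecb_nt.ApproximationOnTwists (Generic Point AdelicPoint Orthogonal SameEverywhere Joined
  SameReduction det)

/-- The adelic points of `C_d` orthogonal to the classes are exactly those which have everywhere the 2-covering type of
one rational Weierstrass point `Q` (`Q.y = 0`). -/
def Determined {k : ℕ} (u v : Fin k → ℤ) (d : ℤ) : Prop :=
  ∀ P : AdelicPoint u v d, Orthogonal P ↔ ∃ Q : Point u v d ℚ, Q.y = 0 ∧ SameEverywhere P Q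

open Classical in
/-- For every real `c > 1` there are `κ > 0` and a set `E` of real numbers of Hausdorff dimension at most `1 - κ`
such that for every real `α > 0` outside `E`, writing `m(n) = ⌊α n ^ c⌋`:

* for all large `N` at least `N / 24` of the `m(n)`, `n ≤ N`, are squarefree;
* for EVERY generic system of an even number `k ≥ 6` of linear forms and both signs there is `C` such that for all large
  `N`, for all but at most `C N (log N) ^ (-1/5)` of the `n ≤ N` with squarefree `m(n)` the adelic points of `C_d`,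
  `d = ± m(n)`, orthogonal to the classes are exactly those with the type of a rational Weierstrass point;
* for squarefree `d` such adelic points are close to this point `Q` at many places: the real component is joined to `Q` in
  `C_d(ℝ)`, and they have the same reduction as `Q` modulo the primes `p ∣ d` which divide no `det i k`, `i ≠ k`. -/
theorem result (c : ℝ) (hc : 1 < c) : ∃ κ : ℝ, 0 < κ ∧ κ < 1 ∧ ∃ E : Set ℝ, dimH E ≤ ENNReal.ofReal (1 - κ) ∧
    ∀ α : ℝ, 0 < α → α ∉ E →
      (∃ N₀ : ℕ, ∀ N : ℕ, N₀ ≤ N →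
        (N : ℝ) / 24 ≤ (((Icc 1 N).filter (fun n : ℕ => Squarefree ⌊α * (n : ℝ) ^ c⌋₊)).card : ℝ)) ∧
      (∀ (k : ℕ) (u v : Fin k → ℤ), 6 ≤ k → Even k → Generic u v → ∀ s : ℤ, (s = 1 ∨ s = -1) →
        (∃ C : ℝ, ∃ N₀ : ℕ, ∀ N : ℕ, N₀ ≤ N →
          (((Icc 1 N).filter (fun n : ℕ => Squarefree ⌊α * (n : ℝ) ^ c⌋₊ ∧
            ¬ Determined u v (s * ((⌊α * (n : ℝ) ^ c⌋₊ : ℕ) : ℤ)))).card : ℝ) ≤
              C * N * (Real.log N) ^ (-(1 / 5 : ℝ)))) ∧
      (∀ (k : ℕ) (u v : Fin k → ℤ), 6 ≤ k → Even k → Generic u v → ∀ d : ℤ, Squarefree d →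
        ∀ (P : AdelicPoint u v d) (Q : Point u v d ℚ), Q.y = 0 → SameEverywhere P Q →
          Joined P.re Q ∧ ∀ p : Nat.Primes, ((p : ℕ) : ℤ) ∣ d → (∀ i j, i ≠ j → ¬ ((p : ℕ) : ℤ) ∣ det u v i j) →
            SameReduction (P.pa p) Q) := by
  obtain ⟨κ, hκ0, hκ1, H⟩ := sparse_sqf c hc
  obtain ⟨E, hE, h⟩ := H ((k : ℕ) × ((Fin k → ℤ) × (Fin k → ℤ))) (fun i d => ¬ Determined i.2.1 i.2.2 d)
  refine ⟨κ, hκ0, hκ1, E, hE, fun α hα hαE => ⟨(h α hα hαE).1, fun k u v hk hev hg s hs => ?_,
    fun k u v hk hev hg d hd P Q hQ hPQ => ?_⟩⟩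
  · obtain ⟨C, hC⟩ := (ApproximationOnTwists.result (Fin k) u v (by rw [Fintype.card_fin]; exact hk)
      (by rw [Fintype.card_fin]; exact hev) hg).1
    obtain ⟨C', N₀, hN⟩ := (h α hα hαE).2 ⟨k, (u, v)⟩ s hs (1 / 5) C (by norm_num) ⟨3, hC⟩
    exact ⟨C', N₀, fun N hNN => le_trans (le_of_eq (congrArg Nat.cast (card_filt _ fun _ => Iff.rfl))) (hN N hNN)⟩
  · have h2 := (ApproximationOnTwists.result (Fin k) u v (by rw [Fintype.card_fin]; exact hk)
      (by rw [Fintype.card_fin]; exact hev) hg).2 d hd P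
    exact (h2.2 Q hPQ).2 hQ

end Pool.Agent.Results.MP_ab3ecb_nt.SparseSplitTwists
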