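import Pool.Agent.X20.Tr.Sqf
import Pool.Agent.Results.MP_ab3ecb_nt.SuperellipticTwists

/-!
# The Brauer-Manin sets of the twists of superelliptic curves by `± ⌊α n ^ c⌋`

From Mathlib: `dimH E`: the Hausdorff dimension; `⌊x⌋₊`: the integer part; `Finset.Icc 1 N`: the integers from `1` to
`N`. From the team's `SuperellipticTwists` (its definitions are used as they are): `Admissible f`: the `f k ∈ ℤ[x]` are
irreducible over `ℚ`, of even degrees and pairwise non-associated; `AdelicCoverPoint f d r`: an adelic point of the curve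
`d y ^ r = ∏ k, F_k(x, w)` (`F_k` the homogenisation of `f k`); `OrthogonalCover P`: it is orthogonal to the classes
`(F_k, e)` of the Brauer group, `e` a nonzero integer; `ex`: the system `X² - 13`, `(X - 1)² - 17`, `(X - 2)² - 221`.
-/

set_option autoImplicit false

namespace Pool.Agent.Results.MP_ab3ecb_nt.SparseSuperelliptic

open Finset Filter Polynomial
open Pool.Agent.X20.Tr
open Pool.Agent.W313.BMX (Admissible)
open Pool.Agent.Results.MP_ab3ecb_nt.SuperellipticTwists (AdelicCoverPoint OrthogonalCover ex)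

/-- For some even `r` dividing the sum of the degrees of the `f k` the curve `d y ^ r = ∏ k, F_k(x, w)` has an adelic
point which is not obstructed. -/
def Unobstructed {k : ℕ} (f : Fin k → ℤ[X]) (d : ℤ) : Prop :=
  ∃ r : ℕ, Even r ∧ r ∣ ∑ i, (f i).natDegree ∧ ∃ P : AdelicCoverPoint f d r, OrthogonalCover P

open Classical in
/-- For every real `c > 1` there are `κ > 0` and a set `E` of real numbers of Hausdorff dimension at most `1 - κ`
such that for every real `α > 0` outside `E`, writing `m(n) = ⌊α n ^ c⌋`: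

* for all large `N` at least `N / 24` of the `m(n)`, `n ≤ N`, are squarefree;
* for EVERY admissible system `f` and both signs, for some `δ > 0` and `C`: for all large `N`, for all but at most
  `C N (log N) ^ (-δ)` of the `n ≤ N` with squarefree `m(n)`, for ALL even `r` dividing the sum of the degrees, every
  adelic point of the curve `d y ^ r = ∏ k, F_k(x, w)`, `d = ± m(n)`, is obstructed by one of the classes `(F_k, e)`;
* the system `ex` is admissible, and its curves have adelic points for all `d` and all `r ≠ 0`. -/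
theorem result (c : ℝ) (hc : 1 < c) : ∃ κ : ℝ, 0 < κ ∧ κ < 1 ∧ ∃ E : Set ℝ, dimH E ≤ ENNReal.ofReal (1 - κ) ∧
    ∀ α : ℝ, 0 < α → α ∉ E →
      (∃ N₀ : ℕ, ∀ N : ℕ, N₀ ≤ N →
        (N : ℝ) / 24 ≤ (((Icc 1 N).filter (fun n : ℕ => Squarefree ⌊α * (n : ℝ) ^ c⌋₊)).card : ℝ)) ∧
      (∀ (k : ℕ) (f : Fin k → ℤ[X]), Admissible f → ∃ δ : ℝ, 0 < δ ∧ ∀ s : ℤ, (s = 1 ∨ s = -1) →
        ∃ C : ℝ, ∃ N₀ : ℕ, ∀ N : ℕ, N₀ ≤ N →
          (((Icc 1 N).filter (fun n : ℕ => Squarefree ⌊α * (n : ℝ) ^ c⌋₊ ∧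
            Unobstructed f (s * ((⌊α * (n : ℝ) ^ c⌋₊ : ℕ) : ℤ)))).card : ℝ) ≤ C * N * (Real.log N) ^ (-δ)) ∧
      (Admissible ex ∧ ∀ (d : ℤ) (r : ℕ), r ≠ 0 → Nonempty (AdelicCoverPoint ex d r)) := by
  obtain ⟨κ, hκ0, hκ1, H⟩ := sparse_sqf c hc
  have := countable_systems
  obtain ⟨E, hE, h⟩ := H ((k : ℕ) × (Fin k → ℤ[X])) (fun i d => Unobstructed i.2 d)
  refine ⟨κ, hκ0, hκ1, E, hE, fun α hα hαE => ⟨(h α hα hαE).1, fun k f hf => ?_, SuperellipticTwists.result.2⟩⟩
  obtain ⟨δ, hδ, C, hC⟩ := (SuperellipticTwists.result.1 (Fin k) f hf).1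
  exact ⟨δ, hδ, fun s hs => (h α hα hαE).2 ⟨k, f⟩ s hs δ C hδ ⟨3, hC⟩⟩

end Pool.Agent.Results.MP_ab3ecb_nt.SparseSuperelliptic
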